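import Pool.Agent.H28.BF.Stm

/-!
# The module PRI of the project BF (helper28), by helper39
-/

set_option autoImplicit false
set_option linter.all false

namespace Pool.Agent.H39.BF

open Finset Filter Topology Polynomial Pool.Agent.H28.BF

theorem t_PRI (hDIM : S_DIM) : S_PRI := by
  intro f hf
  let B : ℕ → ℕ → ℕ → ℕ → Set ℝ := fun k D h j =>
    {α : ℝ | ∃ᶠ N : ℕ in atTop, ((h + 1 : ℕ) : ℝ) * α ∈ Bad (f k) (D + 1) N (1 / ((j : ℝ) + 1))}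
  have hB : ∀ k D h j, dimH (B k D h j) = 0 := by
    intro k D h j
    have h0 := hDIM (f k) (hf k) (D + 1) (Nat.le_add_left 1 D) (1 / ((j : ℝ) + 1)) (by positivity)
    have h1 : B k D h j ⊆ (fun x : ℝ => (((h + 1 : ℕ) : ℝ))⁻¹ • x) ''
        {α : ℝ | ∃ᶠ N : ℕ in atTop, α ∈ Bad (f k) (D + 1) N (1 / ((j : ℝ) + 1))} := by
      intro α hα
      refine ⟨((h + 1 : ℕ) : ℝ) * α, hα, ?_⟩
      have h3 : ((h + 1 : ℕ) : ℝ) ≠ 0 := by positivity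
      show (((h + 1 : ℕ) : ℝ))⁻¹ * (((h + 1 : ℕ) : ℝ) * α) = α
      rw [← mul_assoc, inv_mul_cancel₀ h3, one_mul]
    have h2 : LipschitzWith (‖(((h + 1 : ℕ) : ℝ))⁻¹‖₊)
        (fun x : ℝ => (((h + 1 : ℕ) : ℝ))⁻¹ • x) := lipschitzWith_smul _
    exact le_antisymm ((dimH_mono h1).trans ((h2.dimH_image_le _).trans h0.le)) bot_le
  refine ⟨(⋃ k, ⋃ D, ⋃ h, ⋃ j, B k D h j) ∪ Set.range ((↑) : ℚ → ℝ), ?_, ?_, ?_⟩
  · rw [dimH_union, dimH_countable (Set.countable_range _)]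
    simp only [dimH_iUnion, hB, ciSup_const]
    simp
  · intro α hα
    exact Or.inr (not_not.1 hα)
  · intro α hα k D h hD hh δ hδ
    obtain ⟨j, hj⟩ := exists_nat_one_div_lt hδ
    obtain ⟨D, rfl⟩ : ∃ D', D = D' + 1 := ⟨D - 1, by omega⟩
    obtain ⟨h, rfl⟩ : ∃ h', h = h' + 1 := ⟨h - 1, by omega⟩
    have h1 : α ∉ B k D h j := fun h2 => hα (Or.inl (Set.mem_iUnion.2 ⟨k, Set.mem_iUnion.2 ⟨D,
      Set.mem_iUnion.2 ⟨h, Set.mem_iUnion.2 ⟨j, h2⟩⟩⟩⟩))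
    have h2 : ∀ᶠ N : ℕ in atTop,
        ((h + 1 : ℕ) : ℝ) * α ∉ Bad (f k) (D + 1) N (1 / ((j : ℝ) + 1)) := not_frequently.1 h1
    filter_upwards [h2] with N hN P hP hc
    by_contra hcon
    refine hN ⟨P, hP, hc, ?_⟩
    exact (mul_le_mul_of_nonneg_right hj.le (Nat.cast_nonneg N)).trans (not_le.1 hcon).le

end Pool.Agent.H39.BF
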